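import Pool.Agent.Helper9.UNI.Sheet
import Pool.Agent.Helper67.LS5.CMK

/-!
Project UNI (MP_9a3c31_nt), row CMKu: the lower bound for `rho` with a constant which depends on the
degree of the number field only.
-/

set_option autoImplicit false

open NumberField

namespace Pool.Agent.Helper67.UNI

open Pool.Agent.Helper42.LS Pool.Agent.Helper42.LK Pool.Agent.Helper54.LM Pool.Agent.Helper9.LS5
  Pool.Agent.Helper9.UNI Pool.Agent.Helper67.LS5

/-- row CMKu -/
theorem CMKu (hDF : ST_KDF) (hSX : ST_SIX) : ST_CMKu := by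
  classical
  intro D
  have hl2 : 0 < Real.log 2 := Real.log_pos (by norm_num)
  have hl6 : 0 < Real.log 6 := Real.log_pos (by norm_num)
  have hD0 : (0 : ℝ) ≤ D := Nat.cast_nonneg D
  refine ⟨12 * (1 + D * Real.log 6 / Real.log 2), by positivity, ?_⟩
  intro K _ _ hKD
  have h0 : dsc (0 : K) 1 ≠ 0 := by
    have e : dsc (0 : K) 1 = 27 := by simp [dsc]
    rw [e]; norm_num
  have hS6 : {v : FinitePlace K | ¬ (v 2 = 1 ∧ v 3 = 1)}.Finite := by
    refine (hDF K 0 1 h0).1.subset fun v hv => ?_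
    intro h
    exact hv ⟨h.1, h.2.1⟩
  set n : ℕ := hS6.toFinset.card with hn
  have hnD : (n : ℝ) ≤ D * Real.log 6 / Real.log 2 := by
    rw [le_div_iff₀ hl2]
    have h1 := ((hSX K).2.2.2.2.1 hS6.toFinset fun v hv => hS6.mem_toFinset.mp hv).2
    refine h1.trans (mul_le_mul_of_nonneg_right ?_ hl6.le)
    exact_mod_cast hKD
  intro A B hAB m x
  obtain ⟨hTf, hdl, hMf, hlo, hhi⟩ := hDF K A B hAB
  refine ⟨hTf.toFinset, ?_⟩
  set T : Finset (FinitePlace K) := hTf.toFinset with hT
  set d : FinitePlace K → ℝ := fun v => dl (fun z : K => v z) A B with hd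
  have hd0 : ∀ v, 0 ≤ d v := fun v => (hdl v).1
  have hLD : LD A B = ∑ v ∈ T, d v := by
    unfold LD
    refine finsum_eq_sum_of_support_subset _ fun v hv => ?_
    by_contra hvT
    have hv2 : v 2 = 1 ∧ v 3 = 1 ∧ v A ≤ 1 ∧ v B ≤ 1 ∧ v (dsc A B) = 1 := by
      by_contra hc
      exact hvT (by rw [hT]; exact hTf.mem_toFinset.mpr hc)
    exact hv ((hdl v).2.2.2.2 hv2.1 hv2.2.1 hv2.2.2.1 hv2.2.2.2.1 hv2.2.2.2.2)
  have hLD0 : 0 ≤ LD A B := by rw [hLD]; exact Finset.sum_nonneg fun v _ => hd0 v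
  have harw : 0 ≤ arw A B := Finset.sum_nonneg fun w _ =>
    mul_nonneg (Nat.cast_nonneg _) (le_max_left _ _)
  have hhi' : HK A B ≤ 2 * LD A B + arw A B := hhi
  have hlo' : arw A B + LD A B ≤ HK A B := hlo
  set M : Finset (FinitePlace K) := hMf.toFinset with hM
  have hmK : mK A B = M.card := by
    unfold mK
    rw [hM, ← Set.ncard_coe_finset, hMf.coe_toFinset]
  have hcs : (∑ v ∈ T, d v) ^ 2 ≤ ((1 + n + mK A B : ℕ) : ℝ) * prs T d (Sm A B x) := by
    refine cmk_cs T d (Sm A B x)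
      (fun v => if v ∈ hS6.toFinset ∪ M then some v else none) (1 + n + mK A B)
      (fun v _ => hd0 v) ?_ (insert none ((hS6.toFinset ∪ M).image some)) ?_ ?_
    · intro v _ v' _ h
      by_cases h1 : v ∈ hS6.toFinset ∪ M
      · by_cases h2 : v' ∈ hS6.toFinset ∪ M
        · simp only [if_pos h1, if_pos h2, Option.some.injEq] at h
          exact Or.inl h
        · simp only [if_pos h1, if_neg h2] at h
          exact absurd h (by simp)
      · by_cases h2 : v' ∈ hS6.toFinset ∪ M
        · simp only [if_neg h1, if_pos h2] at h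
          exact absurd h (by simp)
        · right
          have g : ∀ u : FinitePlace K, u ∉ hS6.toFinset ∪ M →
              (u 2 = 1 ∧ u 3 = 1) ∧ ¬ IsMul (fun z : K => u z) A B := by
            intro u hu
            rw [Finset.mem_union, not_or] at hu
            refine ⟨?_, fun hm => hu.2 (by rw [hM]; exact hMf.mem_toFinset.mpr hm)⟩
            by_contra hc
            exact hu.1 (hS6.mem_toFinset.mpr hc)
          obtain ⟨⟨a1, a2⟩, a3⟩ := g v h1
          obtain ⟨⟨b1, b2⟩, b3⟩ := g v' h2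
          refine ⟨a1, a2, b1, b2, fun i => ?_⟩
          have e1 : tz (fun z : K => v z) A B (x i) = 0 := by unfold tz; rw [if_neg a3]
          have e2 : tz (fun z : K => v' z) A B (x i) = 0 := by unfold tz; rw [if_neg b3]
          rw [e1, e2]
          exact ⟨0, by simp⟩
    · intro v _
      by_cases h1 : v ∈ hS6.toFinset ∪ M
      · simp only [if_pos h1]
        exact Finset.mem_insert_of_mem (Finset.mem_image_of_mem _ h1)
      · simp only [if_neg h1]
        exact Finset.mem_insert_self _ _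
    · refine (Finset.card_insert_le _ _).trans ?_
      have c1 : ((hS6.toFinset ∪ M).image some).card ≤ n + M.card :=
        Finset.card_image_le.trans (Finset.card_union_le _ _)
      rw [hmK]
      omega
  rw [← hLD] at hcs
  push_cast at hcs
  have hprs : 0 ≤ prs T d (Sm A B x) := by
    unfold prs
    refine Finset.sum_nonneg fun v _ => Finset.sum_nonneg fun v' _ => ?_
    split_ifs
    · exact mul_nonneg (hd0 v) (hd0 v')
    · exact le_rfl
  have hH : 0 ≤ HK A B := le_trans (add_nonneg harw hLD0) hlo'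
  have hpos : 0 < (1 + HK A B) ^ 2 := by positivity
  have hfac : (12 * (1 + (n : ℝ))) * (1 + (mK A B : ℝ)) * rho A B x T ≤
      (12 * (1 + D * Real.log 6 / Real.log 2)) * (1 + (mK A B : ℝ)) * rho A B x T := by
    have hr0 : 0 ≤ rho A B x T := by
      unfold rho
      exact div_nonneg (add_nonneg (by positivity) hprs) hpos.le
    refine mul_le_mul_of_nonneg_right (mul_le_mul_of_nonneg_right ?_ (by positivity)) hr0
    linarith
  refine le_trans ?_ hfac
  unfold rho
  rw [← mul_div_assoc, one_le_div hpos]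
  have hb : (1 + HK A B) ^ 2 ≤ 3 * (1 + arw A B ^ 2 + 4 * LD A B ^ 2) := by
    have : (1 + HK A B) ^ 2 ≤ (1 + (2 * LD A B + arw A B)) ^ 2 :=
      pow_le_pow_left₀ (by linarith) (by linarith) 2
    nlinarith [sq_nonneg (1 - arw A B), sq_nonneg (1 - 2 * LD A B),
      sq_nonneg (arw A B - 2 * LD A B)]
  have hn0 : (0 : ℝ) ≤ n := Nat.cast_nonneg n
  have hk0 : (0 : ℝ) ≤ mK A B := Nat.cast_nonneg _
  have e1 : (1 : ℝ) + n + mK A B ≤ (1 + n) * (1 + mK A B) := by nlinarith [mul_nonneg hn0 hk0]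
  have e2 : LD A B ^ 2 ≤ (1 + n) * (1 + mK A B) * prs T d (Sm A B x) :=
    hcs.trans (mul_le_mul_of_nonneg_right e1 hprs)
  have e3 : (1 : ℝ) ≤ (1 + n) * (1 + mK A B) := by nlinarith [mul_nonneg hn0 hk0]
  have e4 : 1 + arw A B ^ 2 ≤ (1 + n) * (1 + mK A B) * (1 + arw A B ^ 2) := by
    have : 0 ≤ 1 + arw A B ^ 2 := by positivity
    nlinarith
  have hfin : (1 + HK A B) ^ 2 ≤ 12 * (1 + n) * (1 + (mK A B : ℝ)) *
      (1 + arw A B ^ 2 + prs T d (Sm A B x)) := by
    nlinarith [sq_nonneg (arw A B)]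
  exact hfin

end Pool.Agent.Helper67.UNI
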